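import Pool.Agent.H61.HB.Stmts

/-!
# Row GRW of the board `hbg` (helper93): Gronwall in integral form
-/

set_option autoImplicit false

namespace HB

namespace GR

/-- the projection to `[0,T]` -/
def P (T : ℝ) : ℝ → ℝ := fun t => max 0 (min t T)

theorem P_cont (T : ℝ) : Continuous (P T) := by
  unfold P
  fun_prop

theorem P_mem {T : ℝ} (hT : 0 ≤ T) (t : ℝ) : P T t ∈ Set.Icc 0 T :=
  ⟨le_max_left _ _, max_le hT (min_le_right _ _)⟩

theorem P_eq {T : ℝ} {t : ℝ} (ht : t ∈ Set.Icc 0 T) : P T t = t := by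
  unfold P
  rw [min_eq_left ht.2, max_eq_right ht.1]

theorem comp_cont {T : ℝ} (hT : 0 ≤ T) {f : ℝ → ℝ} (hf : ContinuousOn f (Set.Icc 0 T)) :
    Continuous fun t => f (P T t) :=
  hf.comp_continuous (P_cont T) (P_mem hT)

theorem int_eq {T : ℝ} (f : ℝ → ℝ) {t : ℝ} (ht : t ∈ Set.Icc 0 T) :
    ∫ r in (0 : ℝ)..t, f (P T r) = ∫ r in (0 : ℝ)..t, f r := by
  refine intervalIntegral.integral_congr (fun r hr => ?_)
  rw [Set.uIcc_of_le ht.1] at hr
  show f (P T r) = f r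
  rw [P_eq ⟨hr.1, hr.2.trans ht.2⟩]

theorem prim {c : ℝ → ℝ} (hc : Continuous c) (t : ℝ) :
    HasDerivAt (fun x => ∫ r in (0 : ℝ)..x, c r) (c t) t :=
  intervalIntegral.integral_hasDerivAt_right (hc.intervalIntegrable _ _)
    hc.aestronglyMeasurable.stronglyMeasurableAtFilter hc.continuousAt

/-- a function with derivative `≤ 0` -/
theorem anti {T : ℝ} (g g' : ℝ → ℝ)
    (hg : ∀ t ∈ Set.Icc 0 T, HasDerivWithinAt g (g' t) (Set.Icc 0 T) t)
    (h : ∀ t ∈ Set.Icc 0 T, g' t ≤ 0) : ∀ t ∈ Set.Icc 0 T, g t ≤ g 0 := by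
  intro t ht
  have hder : ∀ x ∈ interior (Set.Icc 0 T), HasDerivAt g (g' x) x := by
    intro x hx
    rw [interior_Icc] at hx
    exact (hg x ⟨hx.1.le, hx.2.le⟩).hasDerivAt (Icc_mem_nhds hx.1 hx.2)
  have hA : AntitoneOn g (Set.Icc 0 T) := by
    refine antitoneOn_of_deriv_nonpos (convex_Icc 0 T)
      (fun x hx => (hg x hx).continuousWithinAt)
      (fun x hx => (hder x hx).differentiableAt.differentiableWithinAt) (fun x hx => ?_)
    rw [(hder x hx).deriv]
    exact h x (interior_subset hx)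
  exact hA ⟨le_rfl, ht.1.trans ht.2⟩ ht ht.1

/-- linear differential inequality -/
theorem dec {T : ℝ} (f f' c : ℝ → ℝ) (hc : Continuous c)
    (hf : ∀ t ∈ Set.Icc 0 T, HasDerivWithinAt f (f' t) (Set.Icc 0 T) t)
    (hle : ∀ t ∈ Set.Icc 0 T, f' t ≤ c t * f t) :
    ∀ t ∈ Set.Icc 0 T, f t ≤ f 0 * Real.exp (∫ r in (0 : ℝ)..t, c r) := by
  intro t ht
  have h1 : ∀ x ∈ Set.Icc 0 T, HasDerivWithinAt
      (fun x => f x * Real.exp (-∫ r in (0 : ℝ)..x, c r))
      (f' x * Real.exp (-∫ r in (0 : ℝ)..x, c r) +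
        f x * (Real.exp (-∫ r in (0 : ℝ)..x, c r) * (-c x))) (Set.Icc 0 T) x := by
    intro x hx
    exact (hf x hx).mul (((prim hc x).neg.exp).hasDerivWithinAt)
  have h2 := anti _ _ h1 (fun x hx => by
    have h3 := hle x hx
    have h4 := Real.exp_pos (-∫ r in (0 : ℝ)..x, c r)
    have h5 : f' x * Real.exp (-∫ r in (0 : ℝ)..x, c r) +
        f x * (Real.exp (-∫ r in (0 : ℝ)..x, c r) * (-c x)) =
        (f' x - c x * f x) * Real.exp (-∫ r in (0 : ℝ)..x, c r) := by ring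
    rw [h5]
    exact mul_nonpos_of_nonpos_of_nonneg (by linarith) h4.le) t ht
  have h2' : f t * Real.exp (-∫ r in (0 : ℝ)..t, c r) ≤
      f 0 * Real.exp (-∫ r in (0 : ℝ)..0, c r) := h2
  rw [intervalIntegral.integral_same, neg_zero, Real.exp_zero, mul_one] at h2'
  rw [Real.exp_neg, ← div_eq_mul_inv, div_le_iff₀ (Real.exp_pos _)] at h2'
  exact h2'

end GR

open GR in
theorem grw_thm : GRWStmt := by
  intro T a φ β hT hφ hβ hβ0 h
  have hφc := comp_cont hT hφ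
  have hβc := comp_cont hT hβ
  have h1 : ∀ t ∈ Set.Icc 0 T, HasDerivWithinAt
      (fun x => a + ∫ r in (0 : ℝ)..x, β (P T r) * φ (P T r)) (β (P T t) * φ (P T t))
      (Set.Icc 0 T) t := fun t _ =>
    ((prim (hβc.mul hφc) t).const_add a).hasDerivWithinAt
  have h2 : ∀ t ∈ Set.Icc 0 T, φ t ≤ a + ∫ r in (0 : ℝ)..t, β (P T r) * φ (P T r) := by
    intro t ht
    have h3 := int_eq (fun r => β r * φ r) ht
    rw [h3]
    exact h t ht
  have h3 := dec _ _ (fun t => β (P T t)) hβc h1 (fun t ht => by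
    have h4 := h2 t ht
    have h5 := hβ0 t ht
    rw [P_eq ht]
    exact mul_le_mul_of_nonneg_left h4 h5)
  intro t ht
  have h4 := h3 t ht
  rw [int_eq β ht] at h4
  have h5 := h2 t ht
  simp only [intervalIntegral.integral_same, add_zero] at h4
  exact h5.trans h4

end HB
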