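import Pool.Agent.H93.HB.GRW

/-!
# Row TRM of the board `hbg` (helper93): a priori bound for triangular solutions
-/

set_option autoImplicit false

namespace HB

namespace TM

open GR

theorem sq_nonneg' (k : Z2) : 0 ≤ sq k := by unfold sq; positivity

theorem mem_two {s : ℝ} (hs : 2 ≤ s) {f : Z2 → ℂ} (h : MemS s f) : MemS 2 f := by
  refine Summable.of_nonneg_of_le (fun k => ?_) (fun k => ?_) h
  · have := sq_nonneg' k
    positivity
  · have := sq_nonneg' k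
    gcongr
    linarith

theorem summ_off {f : Z2 → ℂ} (h : MemS 2 f) : Summable fun k => ‖off f k‖ ^ 2 := by
  refine Summable.of_nonneg_of_le (fun k => by positivity) (fun k => ?_) h
  have h1 := sq_nonneg' k
  have h2 : (1 : ℝ) ≤ (1 + sq k) ^ (2 : ℝ) := Real.one_le_rpow (by linarith) (by norm_num)
  have h3 : ‖off f k‖ ≤ ‖f k‖ := by
    unfold off
    split_ifs
    · simp
    · exact le_rfl
  have h4 : ‖off f k‖ ^ 2 ≤ ‖f k‖ ^ 2 := pow_le_pow_left₀ (norm_nonneg _) h3 2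
  nlinarith [sq_nonneg ‖f k‖]

theorem summ_ds {f : Z2 → ℂ} (h : MemS 2 f) : Summable fun k => sq k ^ 2 * ‖f k‖ ^ 2 := by
  refine Summable.of_nonneg_of_le (fun k => by positivity) (fun k => ?_) h
  have h1 := sq_nonneg' k
  have h2 : sq k ^ 2 ≤ (1 + sq k) ^ (2 : ℝ) := by
    rw [Real.rpow_two]
    nlinarith
  exact mul_le_mul_of_nonneg_right h2 (by positivity)

theorem par (m : ℝ × ℝ) (x y : ℂ) :
    ‖((m.1 : ℝ) : ℂ) * x + ((m.2 : ℝ) : ℂ) * y‖ ^ 2 +
      ‖((-m.2 : ℝ) : ℂ) * x + ((m.1 : ℝ) : ℂ) * y‖ ^ 2 =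
      (m.1 ^ 2 + m.2 ^ 2) * (‖x‖ ^ 2 + ‖y‖ ^ 2) := by
  simp only [← Complex.normSq_eq_norm_sq, Complex.normSq_apply, Complex.add_re, Complex.add_im,
    Complex.mul_re, Complex.mul_im, Complex.ofReal_re, Complex.ofReal_im]
  ring

theorem lin_b (m : ℝ × ℝ) (u : V) (k : Z2) :
    lin ![m.1, m.2] u k = ((m.1 : ℝ) : ℂ) * u 0 k + ((m.2 : ℝ) : ℂ) * u 1 k := by
  simp [lin, Fin.sum_univ_two]

theorem lin_a (m : ℝ × ℝ) (u : V) (k : Z2) :
    lin ![-m.2, m.1] u k = ((-m.2 : ℝ) : ℂ) * u 0 k + ((m.1 : ℝ) : ℂ) * u 1 k := by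
  simp [lin, Fin.sum_univ_two]

theorem mem_lin {u : V} (h : Mem 2 u)
    (hL : ∀ (c : Fin 2 → ℝ) (s : ℝ) (u : V), Mem s u → MemS s (lin c u)) (m : ℝ × ℝ) :
    MemS 2 (lin ![m.1, m.2] u) ∧ MemS 2 (lin ![-m.2, m.1] u) := ⟨hL _ _ _ h, hL _ _ _ h⟩

theorem flu_eq (m : ℝ × ℝ) {u : V} (h : Mem 2 u) (ha : MemS 2 (lin ![-m.2, m.1] u))
    (hb : MemS 2 (lin ![m.1, m.2] u)) :
    flS (lin ![m.1, m.2] u) + flS (lin ![-m.2, m.1] u) = (m.1 ^ 2 + m.2 ^ 2) * flu u := by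
  unfold flu flS
  rw [Fin.sum_univ_two, ← Summable.tsum_add (summ_off hb) (summ_off ha),
    ← Summable.tsum_add (summ_off (h 0)) (summ_off (h 1)), ← tsum_mul_left]
  refine tsum_congr (fun k => ?_)
  unfold off
  split_ifs
  · simp
  · rw [lin_b, lin_a]
    exact par m _ _

theorem dsq_eq (m : ℝ × ℝ) {u : V} (h : Mem 2 u) (ha : MemS 2 (lin ![-m.2, m.1] u))
    (hb : MemS 2 (lin ![m.1, m.2] u)) :
    dsS (lin ![m.1, m.2] u) + dsS (lin ![-m.2, m.1] u) = (m.1 ^ 2 + m.2 ^ 2) * dsq u := by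
  unfold dsq dsS
  rw [Fin.sum_univ_two, ← Summable.tsum_add (summ_ds hb) (summ_ds ha),
    ← Summable.tsum_add (summ_ds (h 0)) (summ_ds (h 1)), ← tsum_mul_left]
  refine tsum_congr (fun k => ?_)
  rw [lin_b, lin_a, ← mul_add, par m]
  ring

theorem cW_nonneg : 0 ≤ cW := by
  unfold cW
  refine tsum_nonneg (fun k => ?_)
  positivity

/-- the inequality of arithmetic and geometric means used for `A'` -/
theorem amgm (ν M c Da Db A : ℝ) (hν : 0 < ν) (hM : 0 < M) (hc : 0 ≤ c) (hDa : 0 ≤ Da)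
    (hDb : 0 ≤ Db) (hA : 0 ≤ A) :
    (1 / √M) * √Db * (2 * √c * √Da) * √A ≤ ν * Da + c / (ν * M) * Db * A := by
  have h1 : 0 < √M := Real.sqrt_pos.2 hM
  have h2 : 0 < √ν := Real.sqrt_pos.2 hν
  have e1 : √ν ^ 2 = ν := Real.sq_sqrt hν.le
  have e2 : √M ^ 2 = M := Real.sq_sqrt hM.le
  have e3 : √c ^ 2 = c := Real.sq_sqrt hc
  have e4 : √Da ^ 2 = Da := Real.sq_sqrt hDa
  have e5 : √Db ^ 2 = Db := Real.sq_sqrt hDb
  have e6 : √A ^ 2 = A := Real.sq_sqrt hA
  have h3 := sq_nonneg (√ν * √Da - √c * √Db * √A / (√ν * √M))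
  have h4 : (√ν * √Da - √c * √Db * √A / (√ν * √M)) ^ 2 =
      √ν ^ 2 * √Da ^ 2 - (1 / √M) * √Db * (2 * √c * √Da) * √A +
        √c ^ 2 / (√ν ^ 2 * √M ^ 2) * √Db ^ 2 * √A ^ 2 := by
    field_simp
    ring
  rw [h4, e1, e2, e3, e4, e5, e6] at h3
  linarith

end TM

open GR TM in
theorem trm_thm (hENE : ENEStmt) (hTRB : TRBStmt) (hTRC : TRCStmt) (hDIV : DIVStmt)
    (hLIN : LINStmt) : TRMStmt := by
  intro ν X m hν hX hm
  obtain ⟨-, -, hLa, hLm⟩ := hLIN
  obtain ⟨-, -, hD3⟩ := hDIV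
  set M : ℝ := m.1 ^ 2 + m.2 ^ 2 with hMdef
  have hM : 0 < M := by
    by_contra hcon
    push Not at hcon
    apply hm
    have h1 : m.1 = 0 := by nlinarith [sq_nonneg m.1, sq_nonneg m.2]
    have h2 : m.2 = 0 := by nlinarith [sq_nonneg m.1, sq_nonneg m.2]
    exact Prod.ext h1 h2
  set Y : ℝ := M * X with hY
  have hY0 : 0 ≤ Y := by positivity
  set γ : ℝ := cW / (ν * M) with hγ
  have hγ0 : 0 ≤ γ := div_nonneg cW_nonneg (by positivity)
  set I : ℝ := Y / (2 * ν) with hI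
  have hI0 : 0 ≤ I := by positivity
  set E1 : ℝ := Real.exp (γ * I) with hE1
  have hE1p : 0 < E1 := Real.exp_pos _
  refine ⟨(Y * E1 + Y) / M + ((Y + γ * (Y * E1) * I) / ν + I) / M, by positivity, ?_⟩
  intro s T u hs hT hsol hRT hu0
  have hmem : ∀ t ∈ Set.Icc 0 T, Mem 2 (u t) := fun t ht j => mem_two hs (hsol.cts.1 t ht j)
  have h0 : (0 : ℝ) ∈ Set.Icc 0 T := ⟨le_rfl, hT⟩
  obtain ⟨cb, db⟩ := hENE ν s T u hν hs hT hsol ![m.1, m.2]
  obtain ⟨ca, da⟩ := hENE ν s T u hν hs hT hsol ![-m.2, m.1]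
  set Bf : ℝ → ℝ := fun r => flS (lin ![m.1, m.2] (u r)) with hBf
  set Af : ℝ → ℝ := fun r => flS (lin ![-m.2, m.1] (u r)) with hAf
  set Db : ℝ → ℝ := fun r => dsS (lin ![m.1, m.2] (u r)) with hDb
  set Da : ℝ → ℝ := fun r => dsS (lin ![-m.2, m.1] (u r)) with hDa
  have hmb : ∀ t ∈ Set.Icc 0 T, MemS 2 (lin ![m.1, m.2] (u t)) := fun t ht =>
    hLm _ _ _ (hmem t ht)
  have hma : ∀ t ∈ Set.Icc 0 T, MemS 2 (lin ![-m.2, m.1] (u t)) := fun t ht =>
    hLm _ _ _ (hmem t ht)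
  have hBn : ∀ t ∈ Set.Icc 0 T, 0 ≤ Bf t ∧ Bf t ≤ Db t := fun t ht =>
    ⟨(hD3 _ (hmb t ht)).1, (hD3 _ (hmb t ht)).2.1⟩
  have hAn : ∀ t ∈ Set.Icc 0 T, 0 ≤ Af t ∧ Af t ≤ Da t := fun t ht =>
    ⟨(hD3 _ (hma t ht)).1, (hD3 _ (hma t ht)).2.1⟩
  have hDbn : ∀ t ∈ Set.Icc 0 T, 0 ≤ Db t := fun t ht => (hBn t ht).1.trans (hBn t ht).2
  have hDan : ∀ t ∈ Set.Icc 0 T, 0 ≤ Da t := fun t ht => (hAn t ht).1.trans (hAn t ht).2
  have hfl : ∀ t ∈ Set.Icc 0 T, Bf t + Af t = M * flu (u t) := fun t ht =>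
    flu_eq m (hmem t ht) (hma t ht) (hmb t ht)
  have hds : ∀ t ∈ Set.Icc 0 T, Db t + Da t = M * dsq (u t) := fun t ht =>
    dsq_eq m (hmem t ht) (hma t ht) (hmb t ht)
  have hB0 : Bf 0 ≤ Y := by
    have h1 := hfl 0 h0
    have h2 := (hAn 0 h0).1
    have h3 := mul_le_mul_of_nonneg_left hu0 hM.le
    linarith
  have hA0 : Af 0 ≤ Y := by
    have h1 := hfl 0 h0
    have h2 := (hBn 0 h0).1
    have h3 := mul_le_mul_of_nonneg_left hu0 hM.le
    linarith
  -- the derivatives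
  have db' : ∀ t ∈ Set.Icc 0 T, HasDerivWithinAt Bf (-2 * ν * Db t) (Set.Icc 0 T) t := by
    intro t ht
    have h1 := db t ht
    rw [hLa _ _ _ (hmem t ht) (hmem t ht), hTRB m (u t) hm (hmem t ht) (hRT t ht).1 (hRT t ht).2,
      mul_zero, sub_zero] at h1
    exact h1
  have hcDb := comp_cont hT cb
  have hcDa := comp_cont hT ca
  -- the integral of `Db`
  have hIb : ∀ t ∈ Set.Icc 0 T, ∫ r in (0 : ℝ)..t, Db (P T r) ≤ I := by
    intro t ht
    have h1 : ∀ x ∈ Set.Icc 0 T, HasDerivWithinAt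
        (fun x => Bf x + 2 * ν * ∫ r in (0 : ℝ)..x, Db (P T r))
        (-2 * ν * Db x + 2 * ν * Db (P T x)) (Set.Icc 0 T) x := fun x hx =>
      (db' x hx).add (((prim hcDb x).const_mul (2 * ν)).hasDerivWithinAt)
    have h2 := anti _ _ h1 (fun x hx => by rw [P_eq hx]; linarith) t ht
    have h2' : Bf t + 2 * ν * ∫ r in (0 : ℝ)..t, Db (P T r) ≤
        Bf 0 + 2 * ν * ∫ r in (0 : ℝ)..0, Db (P T r) := h2
    rw [intervalIntegral.integral_same, mul_zero, add_zero] at h2'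
    have h3 := (hBn t ht).1
    rw [hI, le_div_iff₀ (by positivity)]
    linarith
  have hIbn : ∀ t ∈ Set.Icc 0 T, 0 ≤ ∫ r in (0 : ℝ)..t, Db (P T r) := fun t ht =>
    intervalIntegral.integral_nonneg ht.1 (fun r _ => hDbn _ (P_mem hT r))
  -- the decay of `B`
  have hBd : ∀ t ∈ Set.Icc 0 T, Bf t ≤ Y * Real.exp (-ν * t) := by
    intro t ht
    have h1 := dec Bf _ (fun _ => -2 * ν) continuous_const db' (fun x hx => by
      have := (hBn x hx).2
      nlinarith) t ht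
    rw [intervalIntegral.integral_const, sub_zero, smul_eq_mul] at h1
    refine h1.trans ?_
    have h2 : Real.exp (t * (-2 * ν)) ≤ Real.exp (-ν * t) := by
      refine Real.exp_le_exp.2 ?_
      have := mul_nonneg hν.le ht.1
      linarith
    exact mul_le_mul hB0 h2 (Real.exp_pos _).le hY0
  -- the inequality for `A`
  have hAle : ∀ t ∈ Set.Icc 0 T,
      -2 * ν * dsS (lin ![-m.2, m.1] (u t)) -
        2 * prd (lin ![-m.2, m.1] (u t)) (lin ![-m.2, m.1] (adv (u t) (u t))) ≤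
      -ν * Da t + γ * Db t * Af t := by
    intro t ht
    have h1 := hTRC m (u t) hm (hmem t ht) (hRT t ht).1 (hRT t ht).2
    rw [hLa _ _ _ (hmem t ht) (hmem t ht)]
    have h2 := amgm ν M cW (Da t) (Db t) (Af t) hν hM cW_nonneg (hDan t ht) (hDbn t ht)
      (hAn t ht).1
    have h3 : dsS (lin ![-m.2, m.1] (u t)) = Da t := rfl
    rw [h3]
    have h4 := h1.trans h2
    linarith
  have hAexp : ∀ t ∈ Set.Icc 0 T, Af t ≤ Y * E1 * Real.exp (-ν * t) := by
    intro t ht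
    have hc : Continuous fun r => -ν + γ * Db (P T r) :=
      continuous_const.add (continuous_const.mul hcDb)
    have h1 := dec Af _ _ hc da (fun x hx => by
      refine (hAle x hx).trans ?_
      have h2 := (hAn x hx).2
      rw [P_eq hx]
      nlinarith) t ht
    have h2 : ∫ r in (0 : ℝ)..t, (-ν + γ * Db (P T r)) =
        -ν * t + γ * ∫ r in (0 : ℝ)..t, Db (P T r) := by
      rw [intervalIntegral.integral_add (by simp) ((hcDb.const_mul γ).intervalIntegrable _ _),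
        intervalIntegral.integral_const, intervalIntegral.integral_const_mul]
      simp only [smul_eq_mul]
      ring
    rw [h2, Real.exp_add] at h1
    have h3 : Real.exp (γ * ∫ r in (0 : ℝ)..t, Db (P T r)) ≤ E1 :=
      Real.exp_le_exp.2 (mul_le_mul_of_nonneg_left (hIb t ht) hγ0)
    calc Af t ≤ Af 0 * (Real.exp (-ν * t) * Real.exp (γ * ∫ r in (0 : ℝ)..t, Db (P T r))) := h1
      _ ≤ Y * (Real.exp (-ν * t) * E1) := by
          refine mul_le_mul hA0 ?_ (by positivity) hY0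
          exact mul_le_mul_of_nonneg_left h3 (Real.exp_pos _).le
      _ = Y * E1 * Real.exp (-ν * t) := by ring
  have hAmax : ∀ t ∈ Set.Icc 0 T, Af t ≤ Y * E1 := by
    intro t ht
    refine (hAexp t ht).trans ?_
    have h1 : Real.exp (-ν * t) ≤ 1 := by
      rw [Real.exp_le_one_iff]
      have := mul_nonneg hν.le ht.1
      linarith
    have h2 : 0 ≤ Y * E1 := by positivity
    nlinarith
  -- the integral of `Da`
  have hIa : ∀ t ∈ Set.Icc 0 T, ∫ r in (0 : ℝ)..t, Da (P T r) ≤ (Y + γ * (Y * E1) * I) / ν := by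
    intro t ht
    have h1 : ∀ x ∈ Set.Icc 0 T, HasDerivWithinAt
        (fun x => Af x + ν * (∫ r in (0 : ℝ)..x, Da (P T r)) -
          γ * (Y * E1) * ∫ r in (0 : ℝ)..x, Db (P T r))
        ((-2 * ν * dsS (lin ![-m.2, m.1] (u x)) -
          2 * prd (lin ![-m.2, m.1] (u x)) (lin ![-m.2, m.1] (adv (u x) (u x)))) +
          ν * Da (P T x) - γ * (Y * E1) * Db (P T x)) (Set.Icc 0 T) x := fun x hx =>
      ((da x hx).add (((prim hcDa x).const_mul ν).hasDerivWithinAt)).sub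
        (((prim hcDb x).const_mul (γ * (Y * E1))).hasDerivWithinAt)
    have h2 := anti _ _ h1 (fun x hx => by
      have h3 := hAle x hx
      rw [P_eq hx]
      have h4 : γ * Db x * Af x ≤ γ * (Y * E1) * Db x := by
        have h5 := mul_le_mul_of_nonneg_left (hAmax x hx) (mul_nonneg hγ0 (hDbn x hx))
        linarith
      linarith) t ht
    have h2' : Af t + ν * (∫ r in (0 : ℝ)..t, Da (P T r)) -
        γ * (Y * E1) * (∫ r in (0 : ℝ)..t, Db (P T r)) ≤
        Af 0 + ν * (∫ r in (0 : ℝ)..0, Da (P T r)) -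
        γ * (Y * E1) * (∫ r in (0 : ℝ)..0, Db (P T r)) := h2
    rw [intervalIntegral.integral_same, intervalIntegral.integral_same, mul_zero, mul_zero,
      add_zero, sub_zero] at h2'
    have h3 := (hAn t ht).1
    have h4 : γ * (Y * E1) * (∫ r in (0 : ℝ)..t, Db (P T r)) ≤ γ * (Y * E1) * I :=
      mul_le_mul_of_nonneg_left (hIb t ht) (by positivity)
    rw [le_div_iff₀ hν]
    linarith
  intro t ht
  constructor
  · have h1 := hfl t ht
    have h2 := hAexp t ht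
    have h3 := hBd t ht
    have h4 : flu (u t) ≤ (Y * E1 + Y) / M * Real.exp (-ν * t) := by
      rw [div_mul_eq_mul_div, le_div_iff₀ hM]
      linarith
    refine h4.trans (mul_le_mul_of_nonneg_right ?_ (Real.exp_pos _).le)
    have : 0 ≤ ((Y + γ * (Y * E1) * I) / ν + I) / M := by positivity
    linarith
  · have h1 : ∫ r in (0 : ℝ)..t, dsq (u r) =
        ((∫ r in (0 : ℝ)..t, Da (P T r)) + ∫ r in (0 : ℝ)..t, Db (P T r)) / M := by
      rw [← intervalIntegral.integral_add (hcDa.intervalIntegrable _ _)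
        (hcDb.intervalIntegrable _ _), ← intervalIntegral.integral_div]
      refine intervalIntegral.integral_congr (fun r hr => ?_)
      rw [Set.uIcc_of_le ht.1] at hr
      have hr' : r ∈ Set.Icc 0 T := ⟨hr.1, hr.2.trans ht.2⟩
      show dsq (u r) = (Da (P T r) + Db (P T r)) / M
      rw [P_eq hr', eq_div_iff hM.ne']
      have := hds r hr'
      linarith
    rw [h1]
    have h2 : ((∫ r in (0 : ℝ)..t, Da (P T r)) + ∫ r in (0 : ℝ)..t, Db (P T r)) / M ≤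
        ((Y + γ * (Y * E1) * I) / ν + I) / M :=
      div_le_div_of_nonneg_right (add_le_add (hIa t ht) (hIb t ht)) hM.le
    have h3 : 0 ≤ (Y * E1 + Y) / M := by positivity
    linarith

end HB
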